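import Pool.Agent.helper1.TW.SpecA

set_option autoImplicit false

open Complex MeasureTheory Set
open scoped ComplexConjugate

namespace Pool.Agent.TW

open Pool.Agent.ZT (VV gC Bn MC lamA muA hm Sqf)

theorem TVF (hGTF : GTF_stmt) : TVF_stmt := by
  classical
  intro n ι D hn hC hr hω hX hmul hμ q hq
  obtain ⟨h1, h2, h3, h4, h5, h6, h7⟩ := hGTF n ι D hn hC hr hω hX hμ
  have hsq : 0 < √q := Real.sqrt_pos.2 (lt_of_lt_of_le one_pos hq)
  have hpos : ∀ e : ℕ, e ≠ 0 → 0 < (e : ℝ) / √q := fun e he =>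
    div_pos (by exact_mod_cast Nat.pos_of_ne_zero he) hsq
  have hz : ∀ (e : ℕ) (i : ι), D.X i e * D.f 0 i 0 (e / √q) = 0 := by
    intro e i
    rw [h7, mul_zero]
  have hsum : ∀ (v : ι →₀ VV) (s : Finset ι) (e : ℕ), v.support ⊆ s → e ≠ 0 →
      D.T q v e = ∑ i ∈ s, D.X i e * D.f 0 i (v i) (e / √q) := by
    intro v s e hs he
    rw [Dat.T, if_neg he]
    exact Finsupp.sum_of_support_subset v hs _ (fun i _ => hz e i)
  refine ⟨?_, ?_, hsum, ?_, ?_⟩
  · intro v w e
    by_cases he : e = 0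
    · simp [Dat.T, he]
    rw [Dat.T, Dat.T, Dat.T, if_neg he, if_neg he, if_neg he]
    refine Finsupp.sum_add_index' (fun i => hz e i) (fun i w w' => ?_)
    rw [h5 0 i w w' _ (hpos e he), mul_add]
  · intro t v e
    by_cases he : e = 0
    · simp [Dat.T, he]
    rw [Dat.T, Dat.T, if_neg he, if_neg he, Finsupp.sum_smul_index' (fun i => hz e i),
      Finsupp.sum, Finsupp.sum, Finset.mul_sum]
    refine Finset.sum_congr rfl fun i _ => ?_
    rw [h6 0 i t _ _ (hpos e he)]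
    ring
  · intro v s e d hs he hd
    rw [hsum v s (e * d) hs (mul_ne_zero he hd)]
    refine Finset.sum_congr rfl fun i _ => ?_
    rw [hmul i e d, Nat.cast_mul]
    ring
  · intro v σ hσ
    choose C hCb using fun i => h4 0 i (v i) σ hσ
    refine ⟨∑ i ∈ v.support, |C i| * (√q) ^ σ, Finset.sum_nonneg fun i _ =>
      mul_nonneg (abs_nonneg _) (Real.rpow_nonneg hsq.le _), fun e he => ?_⟩
    have he0 : e ≠ 0 := by omega
    have hepos : (0 : ℝ) < e := by exact_mod_cast he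
    rw [hsum v v.support e subset_rfl he0, Finset.sum_mul]
    refine (norm_sum_le _ _).trans (Finset.sum_le_sum fun i _ => ?_)
    rw [norm_mul]
    have hb := hCb i _ (hpos e he0)
    have hx : ((e : ℝ) / √q) ^ (-σ) = (√q) ^ σ * (e : ℝ) ^ (-σ) := by
      rw [Real.div_rpow hepos.le hsq.le, Real.rpow_neg hsq.le, div_inv_eq_mul, mul_comm]
    calc ‖D.X i e‖ * ‖D.f 0 i (v i) (e / √q)‖
        ≤ 1 * ‖D.f 0 i (v i) (e / √q)‖ :=
          mul_le_mul_of_nonneg_right (hX i e) (norm_nonneg _)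
      _ ≤ C i * ((e : ℝ) / √q) ^ (-σ) := by rw [one_mul]; exact hb
      _ ≤ |C i| * ((e : ℝ) / √q) ^ (-σ) :=
          mul_le_mul_of_nonneg_right (le_abs_self _) (Real.rpow_nonneg (hpos e he0).le _)
      _ = |C i| * (√q) ^ σ * (e : ℝ) ^ (-σ) := by rw [hx]; ring

end Pool.Agent.TW
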